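import Pool.Agent.T6.H35.FE.Mason
import Pool.Agent.T6.H35.GF.Unip

set_option autoImplicit false

/-!
# Rational series of polynomial growth with values solutions of generalised Fermat equations
-/

namespace Pool.Agent.T6.H35.FE

open Polynomial
open Pool.Agent.T6.H35.RS (Neat)
open Pool.Agent.T6.H35.GF (Tst Cycl unip exists_poly)

/-- `(A, B, A + B)` are the terms of a solution of a generalised Fermat equation with coefficients
composed of the primes of `S`, or more generally: they are nonzero and coprime, and `p`-full,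
`q`-full and `r`-full outside of `S` for some exponents with `1 / p + 1 / q + 1 / r < 1` -/
def Sol (S : Set ℕ) (A B : ℤ) : Prop :=
  Int.gcd A B = 1 ∧ A ≠ 0 ∧ B ≠ 0 ∧ A + B ≠ 0 ∧ ∃ p q r : ℕ, 0 < p ∧ 0 < q ∧ 0 < r ∧
    (1 : ℚ) / p + 1 / q + 1 / r < 1 ∧ FullAt S p A ∧ FullAt S q B ∧ FullAt S r (A + B)

/-- the terms of an `S`-solution -/
theorem sol_of_terms {S : Set ℕ} {a b c x y z : ℤ} {p q r : ℕ} (hp : 0 < p) (hq : 0 < q)
    (hr : 0 < r) (hpqr : (1 : ℚ) / p + 1 / q + 1 / r < 1)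
    (hS : ∀ ℓ : ℕ, ℓ.Prime → (ℓ : ℤ) ∣ a * b * c → ℓ ∈ S)
    (ha : a ≠ 0) (hb : b ≠ 0) (hc : c ≠ 0) (hx : x ≠ 0) (hy : y ≠ 0) (hz : z ≠ 0)
    (hgcd : Int.gcd ((Int.gcd (a * x ^ p) (b * y ^ q) : ℕ) : ℤ) (c * z ^ r) = 1)
    (h : a * x ^ p + b * y ^ q = c * z ^ r) : Sol S (a * x ^ p) (b * y ^ q) := by
  have hfull : ∀ (d w : ℤ) (n : ℕ), 0 < n → (∀ ℓ : ℕ, ℓ.Prime → (ℓ : ℤ) ∣ d → ℓ ∈ S) →
      FullAt S n (d * w ^ n) := by
    intro d w n hn hd ℓ hℓ hℓS hdvd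
    have hℓp : Prime (ℓ : ℤ) := Nat.prime_iff_prime_int.1 hℓ
    rcases hℓp.dvd_or_dvd hdvd with h1 | h1
    · exact absurd (hd ℓ hℓ h1) hℓS
    · exact (pow_dvd_pow_of_dvd (hℓp.dvd_of_dvd_pow h1) n).mul_left _
  refine ⟨?_, mul_ne_zero ha (pow_ne_zero _ hx), mul_ne_zero hb (pow_ne_zero _ hy), ?_,
    p, q, r, hp, hq, hr, hpqr, ?_, ?_, ?_⟩
  · set g := Int.gcd (a * x ^ p) (b * y ^ q) with hg
    have h1 : (g : ℤ) ∣ c * z ^ r := by
      rw [← h]
      exact dvd_add (Int.gcd_dvd_left _ _) (Int.gcd_dvd_right _ _)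
    have h2 : (g : ℤ) ∣ (Int.gcd (g : ℤ) (c * z ^ r) : ℤ) := Int.dvd_coe_gcd (dvd_refl _) h1
    rw [hgcd] at h2
    exact Nat.dvd_one.1 (by exact_mod_cast h2)
  · rw [h]
    exact mul_ne_zero hc (pow_ne_zero _ hz)
  · exact hfull a x p hp fun ℓ hℓ hd => hS ℓ hℓ ((hd.mul_right _).mul_right _)
  · exact hfull b y q hq fun ℓ hℓ hd => hS ℓ hℓ ((hd.mul_left _).mul_right _)
  · rw [h]
    exact hfull c z r hr fun ℓ hℓ hd => hS ℓ hℓ (hd.mul_left _)

/-- a polynomial family of solutions is constant -/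
theorem family (S : Set ℕ) (hS : S.Finite) (A B : ℚ[X])
    (h : ∀ m : ℕ, ∃ a b : ℤ, A.eval (m : ℚ) = a ∧ B.eval (m : ℚ) = b ∧ Sol S a b) :
    A.natDegree = 0 ∧ B.natDegree = 0 := by
  classical
  choose a b ha hb hsol using h
  -- integral versions
  obtain ⟨A₁, x, hx, hA₁⟩ := clearZ A
  obtain ⟨B₁, y, hy, hB₁⟩ := clearZ B
  have hxQ : (x : ℚ) ≠ 0 := by exact_mod_cast hx
  have hyQ : (y : ℚ) ≠ 0 := by exact_mod_cast hy
  have hA2 : ∀ m : ℕ, (C y * A₁).eval (m : ℤ) = x * y * a m := by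
    intro m
    have h1 := castZ_eval A₁ m
    rw [hA₁, eval_mul, eval_C, ha m] at h1
    have h2 : A₁.eval (m : ℤ) = x * a m := by exact_mod_cast h1.symm
    rw [eval_mul, eval_C, h2]
    ring
  have hB2 : ∀ m : ℕ, (C x * B₁).eval (m : ℤ) = x * y * b m := by
    intro m
    have h1 := castZ_eval B₁ m
    rw [hB₁, eval_mul, eval_C, hb m] at h1
    have h2 : B₁.eval (m : ℤ) = y * b m := by exact_mod_cast h1.symm
    rw [eval_mul, eval_C, h2]
    ring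
  have hAm : (C y * A₁).map (Int.castRingHom ℚ) = C ((x : ℚ) * y) * A := by
    rw [Polynomial.map_mul, map_C, hA₁, C_mul]
    simp only [Int.coe_castRingHom]
    ring
  have hBm : (C x * B₁).map (Int.castRingHom ℚ) = C ((x : ℚ) * y) * B := by
    rw [Polynomial.map_mul, map_C, hB₁, C_mul]
    simp only [Int.coe_castRingHom]
    ring
  have hCm : (C y * A₁ + C x * B₁).map (Int.castRingHom ℚ) = C ((x : ℚ) * y) * (A + B) := by
    rw [Polynomial.map_add, hAm, hBm]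
    ring
  have hu : IsUnit (C ((x : ℚ) * y)) := Polynomial.isUnit_C.2 (IsUnit.mk0 _ (mul_ne_zero hxQ hyQ))
  have hxy : x * y ≠ 0 := mul_ne_zero hx hy
  -- nonvanishing
  have hA0 : A ≠ 0 := by
    intro h0
    have h1 := ha 0
    rw [h0, eval_zero] at h1
    exact (hsol 0).2.1 (by exact_mod_cast h1.symm)
  have hB0 : B ≠ 0 := by
    intro h0
    have h1 := hb 0
    rw [h0, eval_zero] at h1
    exact (hsol 0).2.2.1 (by exact_mod_cast h1.symm)
  have hC0 : A + B ≠ 0 := by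
    intro h0
    have h1 := congrArg (eval ((0 : ℕ) : ℚ)) h0
    rw [eval_add, ha 0, hb 0, eval_zero] at h1
    exact (hsol 0).2.2.2.1 (by exact_mod_cast h1)
  -- coprimality
  have hcop : IsCoprime A B := by
    by_contra hnc
    have h1 : ¬ IsUnit (gcd A B) := fun h2 => hnc ((gcd_isUnit_iff A B).1 h2)
    have h2 : gcd A B ≠ 0 := fun h3 => hA0 ((gcd_eq_zero_iff A B).1 h3).1
    obtain ⟨π, hπ, hπg⟩ := WfDvdMonoid.exists_irreducible_factor h1 h2
    have hπA : π ∣ A := hπg.trans (gcd_dvd_left A B)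
    have hπB : π ∣ B := hπg.trans (gcd_dvd_right A B)
    obtain ⟨P, c, hc, hP⟩ := clearZ π
    have hcQ : (c : ℚ) ≠ 0 := by exact_mod_cast hc
    have hPdeg : 0 < P.natDegree := by
      have h3 : (P.map (Int.castRingHom ℚ)).natDegree = P.natDegree :=
        natDegree_map_eq_of_injective Int.cast_injective P
      rw [← h3, hP, natDegree_C_mul hcQ]
      exact hπ.natDegree_pos
    have hdiv : ∀ (F : ℤ[X]), π ∣ F.map (Int.castRingHom ℚ) →
        ∃ d : ℤ, d ≠ 0 ∧ ∃ G : ℤ[X], C d * F = P * G := by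
      rintro F ⟨G₀, hG₀⟩
      obtain ⟨G, g, hg, hG⟩ := clearZ G₀
      refine ⟨c * g, mul_ne_zero hc hg, G, ?_⟩
      apply mapZ_inj
      simp only [Polynomial.map_mul, map_C, hP, hG, hG₀, Int.coe_castRingHom, C_mul]
      ring
    obtain ⟨d₁, hd₁, G₁, hG₁⟩ := hdiv (C y * A₁) (by rw [hAm]; exact hπA.mul_left _)
    obtain ⟨d₂, hd₂, G₂, hG₂⟩ := hdiv (C x * B₁) (by rw [hBm]; exact hπB.mul_left _)
    obtain ⟨ℓ, hℓ, hℓN, m, hm⟩ := schur P hPdeg
      ((d₁ * (x * y)).natAbs + (d₂ * (x * y)).natAbs)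
    have hℓp : Prime (ℓ : ℤ) := Nat.prime_iff_prime_int.1 hℓ
    have hndvd : ∀ w : ℤ, w ≠ 0 → w.natAbs < ℓ → ¬ (ℓ : ℤ) ∣ w := by
      intro w hw hlt hdvd
      have h3 := Int.natCast_dvd.1 hdvd
      have h4 := Nat.le_of_dvd (Int.natAbs_pos.2 hw) h3
      omega
    have h3 : (ℓ : ℤ) ∣ a m := by
      have h4 := congrArg (eval (m : ℤ)) hG₁
      rw [eval_mul, eval_C, hA2, eval_mul] at h4
      have h5 : (ℓ : ℤ) ∣ (d₁ * (x * y)) * a m := by
        have h6 : (d₁ * (x * y)) * a m = eval (m : ℤ) P * eval (m : ℤ) G₁ := by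
          rw [← h4]; ring
        rw [h6]
        exact hm.mul_right _
      exact (hℓp.dvd_or_dvd h5).resolve_left (hndvd _ (mul_ne_zero hd₁ hxy) (by omega))
    have h3' : (ℓ : ℤ) ∣ b m := by
      have h4 := congrArg (eval (m : ℤ)) hG₂
      rw [eval_mul, eval_C, hB2, eval_mul] at h4
      have h5 : (ℓ : ℤ) ∣ (d₂ * (x * y)) * b m := by
        have h6 : (d₂ * (x * y)) * b m = eval (m : ℤ) P * eval (m : ℤ) G₂ := by
          rw [← h4]; ring
        rw [h6]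
        exact hm.mul_right _
      exact (hℓp.dvd_or_dvd h5).resolve_left (hndvd _ (mul_ne_zero hd₂ hxy) (by omega))
    have h7 : (ℓ : ℤ) ∣ (Int.gcd (a m) (b m) : ℤ) := Int.dvd_coe_gcd h3 h3'
    rw [(hsol m).1] at h7
    exact hℓ.one_lt.ne' (by exact_mod_cast Int.eq_one_of_dvd_one (by positivity) h7)
  -- a bound for the primes
  obtain ⟨N₀, hN₀⟩ := hS.bddAbove
  set N := N₀ + (x * y).natAbs with hN
  obtain ⟨M₁, m₁, hM₁, ⟨N₁, hNN₁, hp₁⟩, H₁⟩ := pow_dvd_of_min (C y * A₁) N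
  obtain ⟨M₂, m₂, hM₂, ⟨N₂, hNN₂, hp₂⟩, H₂⟩ := pow_dvd_of_min (C x * B₁) N₁
  obtain ⟨M₃, m₃, hM₃, ⟨N₃, hNN₃, hp₃⟩, H₃⟩ := pow_dvd_of_min (C y * A₁ + C x * B₁) N₂
  have hc12 : Nat.Coprime M₁ M₂ := by
    refine Nat.coprime_of_dvd ?_
    intro ℓ hℓ h1 h2
    have := (hp₁ ℓ hℓ h1).2
    have := (hp₂ ℓ hℓ h2).1
    omega
  have hc123 : Nat.Coprime (M₁ * M₂) M₃ := by
    refine Nat.coprime_of_dvd ?_
    intro ℓ hℓ h1 h2
    have h3 := (hp₃ ℓ hℓ h2).1
    rcases (Nat.Prime.dvd_mul hℓ).1 h1 with h4 | h4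
    · have := (hp₁ ℓ hℓ h4).2
      omega
    · have := (hp₂ ℓ hℓ h4).2
      omega
  obtain ⟨k, hk1, hk2⟩ := Nat.chineseRemainder hc12 m₁ m₂
  obtain ⟨m, hm1, hm2⟩ := Nat.chineseRemainder hc123 k m₃
  have e1 : m ≡ m₁ [MOD M₁] := (hm1.of_mul_right M₂).trans hk1
  have e2 : m ≡ m₂ [MOD M₂] := (hm1.of_mul_left M₁).trans hk2
  obtain ⟨hgcd, -, -, -, p, q, r, hp, hq, hr, hpqr, f1, f2, f3⟩ := hsol m
  have hfull : ∀ (N' : ℕ), N ≤ N' → ∀ (w : ℤ) (n : ℕ), 0 < n → FullAt S n w →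
      FullAt {ℓ | ℓ ≤ N'} n (x * y * w) := by
    intro N' hN' w n hn hw ℓ hℓ hℓN hdvd
    have hℓN' : N' < ℓ := not_le.1 hℓN
    have hℓp : Prime (ℓ : ℤ) := Nat.prime_iff_prime_int.1 hℓ
    have h1 : ¬ (ℓ : ℤ) ∣ x * y := by
      intro h2
      have h3 := Nat.le_of_dvd (Int.natAbs_pos.2 hxy) (Int.natCast_dvd.1 h2)
      omega
    have h2 := (hℓp.dvd_or_dvd hdvd).resolve_left h1
    have h3 : ℓ ∉ S := fun h4 => by
      have := hN₀ h4
      omega
    exact (hw ℓ hℓ h3 h2).mul_left _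
  have g1 := H₁ m e1 p (by
    rw [hA2]
    exact hfull N le_rfl _ _ hp f1)
  have g2 := H₂ m e2 q (by
    rw [hB2]
    exact hfull N₁ hNN₁ _ _ hq f2)
  have g3 := H₃ m hm2 r (by
    rw [eval_add, hA2, hB2, ← mul_add]
    exact hfull N₂ (hNN₁.trans hNN₂) _ _ hr f3)
  rw [hAm] at g1
  rw [hBm] at g2
  rw [hCm] at g3
  exact mason A B hA0 hB0 hC0 hcop p q r hp hq hr hpqr
    (fun π hπ hd => (hu.dvd_mul_left).1 (g1 π hπ (hd.mul_left _)))
    (fun π hπ hd => (hu.dvd_mul_left).1 (g2 π hπ (hd.mul_left _)))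
    (fun π hπ hd => (hu.dvd_mul_left).1 (g3 π hπ (hd.mul_left _)))

/-- the condition on the vector `(A, B)` -/
def OnSol (S : Set ℕ) (v : Fin 2 → ℚ) : Prop :=
  ∃ a b : ℤ, v 0 = a ∧ v 1 = b ∧ Sol S a b

theorem const_of {S : Set ℕ} (hS : S.Finite) {s : ℕ} (A : Matrix (Fin 2) (Fin s) ℚ)
    (g : Matrix (Fin s) (Fin s) ℚ) (y : Fin s → ℚ) (hg : (g - 1) ^ s = 0)
    (hon : ∀ m : ℕ, OnSol S (A.mulVec ((g ^ m).mulVec y))) :
    A.mulVec y = A.mulVec (g.mulVec y) := by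
  obtain ⟨p, hp⟩ := exists_poly A g y hg
  have h1 := family S hS (p 0) (p 1) (fun m => by
    obtain ⟨a, b, h1, h2, h3⟩ := hon m
    exact ⟨a, b, (hp m 0).symm.trans h1, (hp m 1).symm.trans h2, h3⟩)
  have h2 : ∀ i, (p i).natDegree = 0 := by
    intro i
    fin_cases i
    · exact h1.1
    · exact h1.2
  funext i
  have h3 := hp 0 i
  have h4 := hp 1 i
  rw [pow_zero, Matrix.one_mulVec] at h3
  rw [pow_one] at h4
  rw [h3, h4]
  have h5 := Polynomial.eq_C_of_natDegree_eq_zero (h2 i)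
  rw [h5, eval_C, eval_C]

theorem tst_sol {S : Set ℕ} (hS : S.Finite) :
    Tst (Cycl ℚ) (OnSol S) (fun v v' : Fin 2 → ℚ => v = v') where
  refl := fun _ => rfl
  symm := fun _ _ h => h.symm
  trans := fun _ _ _ h h' => h.trans h'
  sand := fun _ A g y hg hc hon => const_of hS A g y (unip g hg hc) hon

/-- monoids generated by elements which act by unipotent matrices -/
theorem gen_unip {S : Set ℕ} (hS : S.Finite) {Γ : Type} [Monoid Γ] {r : ℕ}
    (ρ : Γ →* Matrix (Fin r) (Fin r) ℚ) (T : Set Γ) (hT : Submonoid.closure T = ⊤)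
    (hu : ∀ u ∈ T, (ρ u - 1) ^ r = 0) (M : Matrix (Fin 2) (Fin r) ℚ) (x : Fin r → ℚ)
    (hon : ∀ z, OnSol S (M.mulVec ((ρ z).mulVec x))) (z : Γ) :
    M.mulVec ((ρ z).mulVec x) = M.mulVec x := by
  have key : ∀ z : Γ, ∀ z₁ z₂ : Γ, M.mulVec ((ρ (z₁ * z * z₂)).mulVec x) =
      M.mulVec ((ρ (z₁ * z₂)).mulVec x) := by
    intro z
    have hz : z ∈ Submonoid.closure T := by
      rw [hT]
      exact Submonoid.mem_top z
    induction hz using Submonoid.closure_induction with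
    | mem u huT =>
      intro z₁ z₂
      have h1 := const_of hS (M * ρ z₁) (ρ u) ((ρ z₂).mulVec x) (hu u huT) (fun m => by
        have h2 := hon (z₁ * u ^ m * z₂)
        rw [map_mul, map_mul, map_pow] at h2
        simpa only [Matrix.mulVec_mulVec, Matrix.mul_assoc] using h2)
      rw [map_mul, map_mul, map_mul]
      simp only [Matrix.mulVec_mulVec, Matrix.mul_assoc] at h1 ⊢
      exact h1.symm
    | one =>
      intro z₁ z₂
      rw [mul_one]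
    | mul a b _ _ iha ihb =>
      intro z₁ z₂
      have h1 := iha z₁ (b * z₂)
      have h2 := ihb z₁ z₂
      simp only [mul_assoc] at h1 h2 ⊢
      exact h1.trans h2
  have h1 := key z 1 1
  rw [one_mul, mul_one, mul_one, map_one, Matrix.one_mulVec] at h1
  exact h1

end Pool.Agent.T6.H35.FE
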