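import Pool.Agent.T6.H54.PM.Fin
import Pool.Agent.T6.H35.FE.Fam

set_option autoImplicit false

/-!
# Chains of solutions of generalised Fermat equations which are periodic modulo primes
-/

namespace Pool.Agent.T6.H35.FE

open Polynomial NumberField Height Pool.Agent.T6.H54.PM Pool.Agent.TH409.SH

theorem Sol.neg {S : Set ℕ} {a b : ℤ} (h : Sol S a b) : Sol S (-a) (-b) := by
  obtain ⟨h1, h2, h3, h4, p, q, r, hp, hq, hr, h5, h6, h7, h8⟩ := h
  refine ⟨by simpa using h1, neg_ne_zero.2 h2, neg_ne_zero.2 h3, ?_, p, q, r, hp, hq, hr, h5,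
    ?_, ?_, ?_⟩
  · intro h9
    exact h4 (by linarith)
  · intro ℓ hℓ hℓS hd
    exact (dvd_neg).2 (h6 ℓ hℓ hℓS ((dvd_neg).1 hd))
  · intro ℓ hℓ hℓS hd
    exact (dvd_neg).2 (h7 ℓ hℓ hℓS ((dvd_neg).1 hd))
  · intro ℓ hℓ hℓS hd
    have e : -a + -b = -(a + b) := by ring
    rw [e] at hd ⊢
    exact (dvd_neg).2 (h8 ℓ hℓ hℓS ((dvd_neg).1 hd))

/-- coprime integral coordinates of the same point agree up to sign -/
theorem sign_of_same {a b a' b' : ℤ} (h : Int.gcd a b = 1) (h' : Int.gcd a' b' = 1)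
    (hp : a * b' = a' * b) : (a = a' ∧ b = b') ∨ (a = -a' ∧ b = -b') := by
  have h1 : IsCoprime a b := Int.isCoprime_iff_gcd_eq_one.2 h
  have h2 : IsCoprime a' b' := Int.isCoprime_iff_gcd_eq_one.2 h'
  have d1 : a ∣ a' := h1.dvd_of_dvd_mul_right ⟨b', hp.symm⟩
  have d2 : a' ∣ a := h2.dvd_of_dvd_mul_right ⟨b, hp⟩
  have d3 : b ∣ b' := h1.symm.dvd_of_dvd_mul_left ⟨a', by rw [hp]; ring⟩
  have d4 : b' ∣ b := h2.symm.dvd_of_dvd_mul_left ⟨a, by rw [← hp]; ring⟩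
  rcases Int.natAbs_eq_natAbs_iff.1 (Int.natAbs_dvd_natAbs.2 d1 |>.antisymm
    (Int.natAbs_dvd_natAbs.2 d2)) with h3 | h3 <;>
  rcases Int.natAbs_eq_natAbs_iff.1 (Int.natAbs_dvd_natAbs.2 d3 |>.antisymm
    (Int.natAbs_dvd_natAbs.2 d4)) with h4 | h4
  · exact Or.inl ⟨h3, h4⟩
  · -- a = a', b = - b'
    subst h3; subst h4
    have h5 : a * b' = 0 := by linarith
    rcases mul_eq_zero.1 h5 with h6 | h6
    · right; subst h6; simp
    · left; subst h6; simp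
  · rw [h3, h4] at hp
    have h5 : a' * b' = 0 := by linarith
    rcases mul_eq_zero.1 h5 with h6 | h6
    · left; exact ⟨by rw [h3, h6]; simp, h4⟩
    · right; exact ⟨h3, by rw [h4, h6]; simp⟩
  · exact Or.inr ⟨h3, h4⟩

/-- congruence of points of the projective line over `ℚ` -/
theorem congr_of {p : ℕ} (hp : p.Prime) {a b a' b' : ℤ} (h : Int.gcd a b = 1)
    (h' : Int.gcd a' b' = 1) (hd : (p : ℤ) ∣ a' * b - a * b') :
    CongrMod (K := ℚ) p (N := 1) ![(a' : ℚ), (b' : ℚ)] ![(a : ℚ), (b : ℚ)] := by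
  obtain ⟨u, v, huv⟩ := Int.isCoprime_iff_gcd_eq_one.2 h
  obtain ⟨u', v', huv'⟩ := Int.isCoprime_iff_gcd_eq_one.2 h'
  set c : ℤ := u * a' + v * b' with hc
  obtain ⟨w, hw⟩ := hd
  have e1 : a' - c * a = p * (v * w) := by
    have : a' - c * a = v * (a' * b - a * b') := by
      rw [hc]; linear_combination (-a') * huv
    rw [this, hw]; ring
  have e2 : b' - c * b = p * (-(u * w)) := by
    have : b' - c * b = -(u * (a' * b - a * b')) := by
      rw [hc]; linear_combination (-b') * huv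
    rw [this, hw]; ring
  have hc0 : c ≠ 0 := by
    intro h0
    rw [h0, zero_mul, sub_zero] at e1 e2
    have h1 : (p : ℤ) ∣ 1 := by
      rw [← huv', e1, e2]
      exact ⟨u' * (v * w) + v' * (-(u * w)), by ring⟩
    exact hp.one_lt.ne' (by exact_mod_cast Int.eq_one_of_dvd_one (by positivity) h1)
  refine ⟨1, c, ![(a' : 𝓞 ℚ), (b' : 𝓞 ℚ)], ![(c * a : 𝓞 ℚ), (c * b : 𝓞 ℚ)], one_ne_zero,
    by exact_mod_cast hc0, ?_, ?_, ⟨![(u' : 𝓞 ℚ), (v' : 𝓞 ℚ)], ?_⟩, ?_⟩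
  · intro i; fin_cases i <;> simp
  · intro i; fin_cases i <;> simp
  · have e : ∑ i, ![(u' : 𝓞 ℚ), (v' : 𝓞 ℚ)] i * ![(a' : 𝓞 ℚ), (b' : 𝓞 ℚ)] i - 1 = 0 := by
      rw [Fin.sum_univ_two]
      have : ((u' * a' + v' * b' : ℤ) : 𝓞 ℚ) = 1 := by rw [huv']; simp
      push_cast at this
      simp [this]
    rw [e]; exact dvd_zero _
  · intro i
    fin_cases i
    · have : ((a' - c * a : ℤ) : 𝓞 ℚ) = ((p * (v * w) : ℤ) : 𝓞 ℚ) := by rw [e1]
      push_cast at this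
      simp only [Fin.zero_eta, Matrix.cons_val_zero]
      rw [this]; exact dvd_mul_right _ _
    · have : ((b' - c * b : ℤ) : 𝓞 ℚ) = ((p * (-(u * w)) : ℤ) : 𝓞 ℚ) := by rw [e2]
      push_cast at this
      simp only [Fin.mk_one, Matrix.cons_val_one, Matrix.cons_val_fin_one]
      rw [this]; exact dvd_mul_right _ _

theorem ah_le {a b : ℤ} (h : Int.gcd a b = 1) {t : ℝ} (ha : |(a : ℝ)| ≤ Real.exp t)
    (hb : |(b : ℝ)| ≤ Real.exp t) : ah ℚ (![(a : ℚ), (b : ℚ)] : Fin 2 → ℚ) ≤ t := by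
  have hg : Finset.univ.gcd (![a, b] : Fin 2 → ℤ) = 1 := by
    have h1 : Finset.univ.gcd (![a, b] : Fin 2 → ℤ) ∣ 1 := by
      obtain ⟨u, v, huv⟩ := Int.isCoprime_iff_gcd_eq_one.2 h
      rw [← huv]
      have d0 := Finset.gcd_dvd (f := (![a, b] : Fin 2 → ℤ)) (Finset.mem_univ 0)
      have d1 := Finset.gcd_dvd (f := (![a, b] : Fin 2 → ℤ)) (Finset.mem_univ 1)
      exact dvd_add (d0.mul_left _) (d1.mul_left _)
    have h2 := Finset.normalize_gcd (s := Finset.univ) (f := (![a, b] : Fin 2 → ℤ))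
    rw [← h2]
    exact normalize_eq_one.2 (isUnit_of_dvd_one h1)
  have h1 := Rat.logHeight_eq_max_abs_of_gcd_eq_one hg
  have e : ((Int.cast : ℤ → ℚ) ∘ (![a, b] : Fin 2 → ℤ)) = ![(a : ℚ), (b : ℚ)] := by
    funext i; fin_cases i <;> simp
  rw [e] at h1
  unfold ah
  rw [h1, Module.finrank_self, Nat.cast_one, div_one]
  obtain ⟨i, hi⟩ := exists_eq_ciSup_of_finite (f := fun i => |(![a, b] : Fin 2 → ℤ) i|)
  rw [← hi]
  have h0 : (0 : ℝ) < ((|(![a, b] : Fin 2 → ℤ) i| : ℤ) : ℝ) := by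
    rw [hi]
    have hne : a ≠ 0 ∨ b ≠ 0 := by
      by_contra hh
      push Not at hh
      rw [hh.1, hh.2] at h
      simp at h
    rcases hne with hne | hne
    · have := Finite.le_ciSup (fun i => |(![a, b] : Fin 2 → ℤ) i|) 0
      have h3 : 0 < |a| := abs_pos.2 hne
      exact_mod_cast lt_of_lt_of_le h3 this
    · have := Finite.le_ciSup (fun i => |(![a, b] : Fin 2 → ℤ) i|) 1
      have h3 : 0 < |b| := abs_pos.2 hne
      exact_mod_cast lt_of_lt_of_le h3 this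
  rw [← Real.log_exp t]
  refine Real.log_le_log h0 ?_
  fin_cases i
  · simpa using ha
  · simpa using hb

/-- integral polynomials which give terms of solutions, up to a factor, for all arguments -/
theorem dich {S : Set ℕ} (hS : S.Finite) (f u : Fin 2 → ℚ[X]) (hu : ∑ j, u j * f j = 1)
    (h : ∀ n : ℕ, ∃ a b : ℤ, Sol S a b ∧ ∃ c : ℚ, c ≠ 0 ∧ (a : ℚ) = c * (f 0).eval (n : ℚ) ∧
      (b : ℚ) = c * (f 1).eval (n : ℚ)) : (f 0).natDegree = 0 ∧ (f 1).natDegree = 0 := by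
  obtain ⟨F₀, d₀, hd₀, hF₀⟩ := clearZ (f 0)
  obtain ⟨F₁, d₁, hd₁, hF₁⟩ := clearZ (f 1)
  obtain ⟨U₀, e₀, he₀, hU₀⟩ := clearZ (u 0)
  obtain ⟨U₁, e₁, he₁, hU₁⟩ := clearZ (u 1)
  -- common denominators
  set G₀ : ℤ[X] := C d₁ * F₀ with hG₀
  set G₁ : ℤ[X] := C d₀ * F₁ with hG₁
  set D : ℤ := d₀ * d₁ with hD
  have hD0 : D ≠ 0 := mul_ne_zero hd₀ hd₁
  have g0 : G₀.map (Int.castRingHom ℚ) = C (D : ℚ) * f 0 := by
    rw [hG₀, Polynomial.map_mul, hF₀, map_C, ← mul_assoc, ← C_mul, hD]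
    congr 2
    simp [mul_comm]
  have g1 : G₁.map (Int.castRingHom ℚ) = C (D : ℚ) * f 1 := by
    rw [hG₁, Polynomial.map_mul, hF₁, map_C, ← mul_assoc, ← C_mul, hD]
    congr 2
    simp
  clear_value G₀ G₁
  set R : ℤ := e₀ * e₁ * D with hR
  have hR0 : R ≠ 0 := mul_ne_zero (mul_ne_zero he₀ he₁) hD0
  -- the Bezout identity
  have hbez : C e₁ * U₀ * G₀ + C e₀ * U₁ * G₁ = C R := by
    apply mapZ_inj
    rw [Polynomial.map_add, Polynomial.map_mul, Polynomial.map_mul, Polynomial.map_mul,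
      Polynomial.map_mul, hU₀, hU₁, g0, g1, map_C, map_C, map_C]
    rw [Fin.sum_univ_two] at hu
    have : C ((Int.castRingHom ℚ) e₁) * (C (e₀ : ℚ) * u 0) * (C (D : ℚ) * f 0) +
        C ((Int.castRingHom ℚ) e₀) * (C (e₁ : ℚ) * u 1) * (C (D : ℚ) * f 1) =
        C (e₀ : ℚ) * C (e₁ : ℚ) * C (D : ℚ) * (u 0 * f 0 + u 1 * f 1) := by
      simp only [Int.coe_castRingHom]
      ring
    rw [this, hu, mul_one, ← C_mul, ← C_mul, hR]
    congr 1
    simp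
  -- the greatest common divisor along the multiples of `R`
  set g : ℕ := Int.gcd (Int.gcd (G₀.eval 0) (G₁.eval 0)) R with hg
  have hg0 : g ≠ 0 := by
    rw [hg]
    exact fun hh => hR0 (Int.gcd_eq_zero_iff.1 hh).2
  set Rn : ℕ := R.natAbs with hRn
  have hRn0 : Rn ≠ 0 := Int.natAbs_ne_zero.2 hR0
  have hmod : ∀ (G : ℤ[X]) (m : ℕ), R ∣ G.eval ((Rn * m : ℕ) : ℤ) - G.eval 0 := by
    intro G m
    have h1 := G.sub_dvd_eval_sub ((Rn * m : ℕ) : ℤ) 0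
    refine dvd_trans ?_ h1
    rw [sub_zero]
    push_cast
    exact (Int.dvd_natAbs_self).mul_right _
  have hgcd : ∀ m : ℕ, Int.gcd (G₀.eval ((Rn * m : ℕ) : ℤ)) (G₁.eval ((Rn * m : ℕ) : ℤ)) = g := by
    intro m
    have hb := congrArg (Polynomial.eval ((Rn * m : ℕ) : ℤ)) hbez
    simp only [eval_add, eval_mul, eval_C] at hb
    obtain ⟨w0, hw0⟩ := hmod G₀ m
    obtain ⟨w1, hw1⟩ := hmod G₁ m
    apply Nat.dvd_antisymm
    · apply Int.natCast_dvd_natCast.1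
      have k0 := Int.gcd_dvd_left (G₀.eval ((Rn * m : ℕ) : ℤ)) (G₁.eval ((Rn * m : ℕ) : ℤ))
      have k1 := Int.gcd_dvd_right (G₀.eval ((Rn * m : ℕ) : ℤ)) (G₁.eval ((Rn * m : ℕ) : ℤ))
      have kR : ((Int.gcd (G₀.eval ((Rn * m : ℕ) : ℤ)) (G₁.eval ((Rn * m : ℕ) : ℤ)) : ℕ) : ℤ) ∣ R := by
        rw [← hb]
        exact dvd_add (k0.mul_left _) (k1.mul_left _)
      refine Int.dvd_coe_gcd (Int.dvd_coe_gcd ?_ ?_) kR
      · have : G₀.eval 0 = G₀.eval ((Rn * m : ℕ) : ℤ) - R * w0 := by rw [← hw0]; ring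
        rw [this]
        exact dvd_sub k0 (kR.mul_right _)
      · have : G₁.eval 0 = G₁.eval ((Rn * m : ℕ) : ℤ) - R * w1 := by rw [← hw1]; ring
        rw [this]
        exact dvd_sub k1 (kR.mul_right _)
    · apply Int.natCast_dvd_natCast.1
      have kR : ((g : ℕ) : ℤ) ∣ R := Int.gcd_dvd_right _ _
      have kk : ((g : ℕ) : ℤ) ∣ ((Int.gcd (G₀.eval 0) (G₁.eval 0) : ℕ) : ℤ) := Int.gcd_dvd_left _ _
      refine Int.dvd_coe_gcd ?_ ?_
      · have : G₀.eval ((Rn * m : ℕ) : ℤ) = G₀.eval 0 + R * w0 := by rw [← hw0]; ring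
        rw [this]
        exact dvd_add (kk.trans (Int.gcd_dvd_left _ _)) (kR.mul_right _)
      · have : G₁.eval ((Rn * m : ℕ) : ℤ) = G₁.eval 0 + R * w1 := by rw [← hw1]; ring
        rw [this]
        exact dvd_add (kk.trans (Int.gcd_dvd_right _ _)) (kR.mul_right _)
  -- the normalised family
  have hgQ : (g : ℚ) ≠ 0 := by exact_mod_cast hg0
  have hDQ : (D : ℚ) ≠ 0 := by exact_mod_cast hD0
  have hRQ : (Rn : ℚ) ≠ 0 := by exact_mod_cast hRn0
  have hev : ∀ (G : ℤ[X]) (n : ℕ), ((G.eval (n : ℤ) : ℤ) : ℚ) =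
      (G.map (Int.castRingHom ℚ)).eval (n : ℚ) := by
    intro G n
    rw [eval_map, eval₂_at_natCast]
    simp
  have key := family S hS ((C ((D : ℚ) / g) * f 0).comp (C (Rn : ℚ) * X))
    ((C ((D : ℚ) / g) * f 1).comp (C (Rn : ℚ) * X)) (fun m => by
      obtain ⟨a, b, hab, c, hc, h1, h2⟩ := h (Rn * m)
      have k0 : ((g : ℕ) : ℤ) ∣ G₀.eval ((Rn * m : ℕ) : ℤ) := by
        rw [← hgcd m]; exact Int.gcd_dvd_left _ _
      have k1 : ((g : ℕ) : ℤ) ∣ G₁.eval ((Rn * m : ℕ) : ℤ) := by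
        rw [← hgcd m]; exact Int.gcd_dvd_right _ _
      obtain ⟨x, hx⟩ := k0
      obtain ⟨y, hy⟩ := k1
      have hxy : Int.gcd x y = 1 := by
        have h3 := hgcd m
        rw [hx, hy, Int.gcd_mul_left] at h3
        simp only [Int.natAbs_natCast] at h3
        exact Nat.eq_of_mul_eq_mul_left (Nat.pos_of_ne_zero hg0) (by rw [h3, mul_one])
      have x1 : (x : ℚ) = (D : ℚ) / g * (f 0).eval ((Rn * m : ℕ) : ℚ) := by
        have h3 := hev G₀ (Rn * m)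
        rw [g0, eval_mul, eval_C, hx] at h3
        push_cast at h3 ⊢
        field_simp
        linarith
      have y1 : (y : ℚ) = (D : ℚ) / g * (f 1).eval ((Rn * m : ℕ) : ℚ) := by
        have h3 := hev G₁ (Rn * m)
        rw [g1, eval_mul, eval_C, hy] at h3
        push_cast at h3 ⊢
        field_simp
        linarith
      have hpar : a * y = x * b := by
        have : (a : ℚ) * y = x * b := by
          rw [h1, h2, x1, y1]; ring
        exact_mod_cast this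
      have hsol : Sol S x y := by
        rcases sign_of_same hab.1 hxy hpar with ⟨h3, h4⟩ | ⟨h3, h4⟩
        · rw [← h3, ← h4]; exact hab
        · have := hab.neg
          rw [h3, h4, neg_neg, neg_neg] at this
          exact this
      refine ⟨x, y, ?_, ?_, hsol⟩
      · rw [eval_comp, eval_mul, eval_mul, eval_C, eval_C, eval_X, x1]
        push_cast
        ring
      · rw [eval_comp, eval_mul, eval_mul, eval_C, eval_C, eval_X, y1]
        push_cast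
        ring)
  have hlin : (C (Rn : ℚ) * X : ℚ[X]).natDegree = 1 := natDegree_C_mul_X _ hRQ
  have hfac : (D : ℚ) / g ≠ 0 := div_ne_zero hDQ hgQ
  rw [natDegree_comp, natDegree_comp, hlin, mul_one, mul_one, natDegree_C_mul hfac,
    natDegree_C_mul hfac] at key
  exact key

/-- a chain of terms of solutions -/
structure SolChain (S Q : Set ℕ) (p₀ : ℕ) (c C₀ : ℝ) (T : ℕ) (A B : ℕ → ℤ) : Prop where
  sol : ∀ n ≤ T, Sol S (A n) (B n)
  per : ∀ p ∈ Q, p₀ ≤ p → ∀ n, n + p ≤ T → (p : ℤ) ∣ A (n + p) * B n - A n * B (n + p)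
  ht : ∀ n : ℕ, n ≤ T → |(A n : ℝ)| ≤ Real.exp (c * n + C₀) ∧ |(B n : ℝ)| ≤ Real.exp (c * n + C₀)

/-- `(a, b)` are terms of a solution and homogeneous coordinates of the point `f n` -/
def Good (S : Set ℕ) (f : Fin 2 → ℚ[X]) (n : ℕ) : Prop :=
  ∃ a b : ℤ, Sol S a b ∧ ∃ c : ℚ, c ≠ 0 ∧ (a : ℚ) = c * (f 0).eval (n : ℚ) ∧
    (b : ℚ) = c * (f 1).eval (n : ℚ)

theorem Sol.change {S S' : Set ℕ} {a b : ℤ} (h : Sol S a b)
    (hS : ∀ ℓ : ℕ, ℓ.Prime → (ℓ : ℤ) ∣ a * b * (a + b) → ℓ ∈ S → ℓ ∈ S') : Sol S' a b := by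
  obtain ⟨h1, h2, h3, h4, p, q, r, hp, hq, hr, h5, h6, h7, h8⟩ := h
  refine ⟨h1, h2, h3, h4, p, q, r, hp, hq, hr, h5, ?_, ?_, ?_⟩
  · intro ℓ hℓ hℓS hd
    exact h6 ℓ hℓ (fun hh => hℓS (hS ℓ hℓ ((hd.mul_right _).mul_right _) hh)) hd
  · intro ℓ hℓ hℓS hd
    exact h7 ℓ hℓ (fun hh => hℓS (hS ℓ hℓ ((hd.mul_left _).mul_right _) hh)) hd
  · intro ℓ hℓ hℓS hd
    exact h8 ℓ hℓ (fun hh => hℓS (hS ℓ hℓ (hd.mul_left _) hh)) hd

/-- a bad argument which is bounded in terms of the number of primes of `S` -/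
theorem unif (s : ℕ) (f u : Fin 2 → ℚ[X]) (hu : ∑ j, u j * f j = 1)
    (hnc : ¬ ((f 0).natDegree = 0 ∧ (f 1).natDegree = 0)) :
    ∃ N : ℕ, ∀ S : Set ℕ, S.Finite → S.ncard ≤ s → ∃ n ≤ N, ¬ Good S f n := by
  classical
  by_contra hcon
  push Not at hcon
  choose S hfin hcard hgood using hcon
  set U : Ultrafilter ℕ := Filter.hyperfilter ℕ with hU
  have hge : ∀ k : ℕ, ∀ᶠ N in (U : Filter ℕ), k ≤ N := fun k =>
    (Filter.hyperfilter_le_cofinite.trans Nat.cofinite_eq_atTop.le) (Filter.eventually_ge_atTop k)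
  set S' : Set ℕ := {ℓ | ∀ᶠ N in (U : Filter ℕ), ℓ ∈ S N} with hS'
  have hS'fin : S'.Finite := by
    by_contra hinf
    obtain ⟨t, ht, htc⟩ := Set.Infinite.exists_subset_card_eq hinf (s + 1)
    have h1 : ∀ᶠ N in (U : Filter ℕ), ∀ ℓ ∈ t, ℓ ∈ S N :=
      (Filter.eventually_all_finset _).2 fun ℓ hℓ => ht hℓ
    obtain ⟨N, hN⟩ := h1.exists
    have h2 : (t : Set ℕ) ⊆ S N := fun ℓ hℓ => hN ℓ hℓ
    have h3 := Set.ncard_le_ncard h2 (hfin N)
    rw [Set.ncard_coe_finset, htc] at h3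
    have := hcard N
    omega
  apply hnc
  refine dich hS'fin f u hu fun n => ?_
  obtain ⟨a, b, hab, c, hc, h1, h2⟩ := hgood n n le_rfl
  have hne : a * b * (a + b) ≠ 0 := mul_ne_zero (mul_ne_zero hab.2.1 hab.2.2.1) hab.2.2.2.1
  have hev : ∀ᶠ N in (U : Filter ℕ), ∀ ℓ ∈ (a * b * (a + b)).natAbs.primeFactors,
      ℓ ∈ S N → ℓ ∈ S' := by
    refine (Filter.eventually_all_finset _).2 fun ℓ _ => ?_
    by_cases hℓ : ∀ᶠ N in (U : Filter ℕ), ℓ ∈ S N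
    · exact Filter.Eventually.of_forall fun N _ => hℓ
    · have h3 := (Ultrafilter.eventually_not (f := U)).2 hℓ
      filter_upwards [h3] with N hN h4
      exact absurd h4 hN
  obtain ⟨N, hN, hnN⟩ := (hev.and (hge n)).exists
  obtain ⟨a', b', hab', c', hc', h1', h2'⟩ := hgood N n hnN
  have hpar : a' * b = a * b' := by
    have : (a' : ℚ) * b = a * b' := by
      rw [h1, h2, h1', h2']; ring
    exact_mod_cast this
  have hsol : Sol (S N) a b := by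
    rcases sign_of_same hab'.1 hab.1 hpar with ⟨h3, h4⟩ | ⟨h3, h4⟩
    · rw [← h3, ← h4]; exact hab'
    · have := hab'.neg
      rw [h3, h4, neg_neg, neg_neg] at this
      exact this
  refine ⟨a, b, hsol.change fun ℓ hℓ hd hh => hN ℓ ?_ hh, c, hc, h1, h2⟩
  exact Nat.mem_primeFactors.2 ⟨hℓ, Int.natCast_dvd.1 hd, Int.natAbs_ne_zero.2 hne⟩

/-- **Long chains are constant**; the bound depends only on the number of primes of `S`. -/
theorem chains {Q : Set ℕ} (hQ : ∀ p ∈ Q, p.Prime) {δ : ℝ} (hδ : 0 < δ) {n₀ : ℕ}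
    (hwt : ∀ n : ℕ, n₀ ≤ n → δ * n ≤ wt Q n) (p₀ : ℕ) (C₀ : ℝ) (s : ℕ) :
    ∃ T₀ : ℕ, ∀ S : Set ℕ, S.Finite → S.ncard ≤ s → ∀ T ≥ T₀, ∀ A B : ℕ → ℤ,
      SolChain S Q p₀ ((δ / 16) ^ 3) C₀ T A B →
      ∀ n ≤ T, (A n = A 0 ∧ B n = B 0) ∨ (A n = -A 0 ∧ B n = -B 0) := by
  classical
  obtain ⟨𝓕, hfin, hprim, T₁, hT₁⟩ := finite_chains hQ hδ hwt p₀ C₀ ℚ 1
  -- for each curve: constant, or a bad argument
  have hex : ∀ F ∈ 𝓕, ¬ (((F 0).map (algebraMap (𝓞 ℚ) ℚ)).natDegree = 0 ∧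
      ((F 1).map (algebraMap (𝓞 ℚ) ℚ)).natDegree = 0) →
      ∃ N : ℕ, ∀ S : Set ℕ, S.Finite → S.ncard ≤ s → ∃ n ≤ N,
        ¬ Good S (fun i => (F i).map (algebraMap (𝓞 ℚ) ℚ)) n := by
    intro F hF hnc
    obtain ⟨u, hu⟩ := hprim F hF
    exact unif s (fun i => (F i).map (algebraMap (𝓞 ℚ) ℚ)) u hu hnc
  choose! bad hbad using hex
  obtain ⟨T₂, hT₂⟩ : ∃ T₂ : ℕ, ∀ F ∈ 𝓕, bad F ≤ T₂ := by
    obtain ⟨T₂, h⟩ := (hfin.image bad).bddAbove
    exact ⟨T₂, fun F hF => h (Set.mem_image_of_mem _ hF)⟩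
  refine ⟨max T₁ T₂, fun S hS hSc T hT A B hAB n hn => ?_⟩
  have hP : Chain Q p₀ ((δ / 16) ^ 3) C₀ T
      (fun n => (![(A n : ℚ), (B n : ℚ)] : Fin (1 + 1) → ℚ)) := by
    refine ⟨fun n hn h0 => ?_, fun p hp hp0 n hn => ?_, fun n hn => ?_⟩
    · have h1 := congrFun h0 0
      simp only [Matrix.cons_val_zero, Pi.zero_apply, Int.cast_eq_zero] at h1
      exact (hAB.sol n hn).2.1 h1
    · exact congr_of (hQ p hp) (hAB.sol n (le_trans (Nat.le_add_right _ _) hn)).1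
        (hAB.sol (n + p) hn).1 (hAB.per p hp hp0 n hn)
    · exact ah_le (hAB.sol n hn).1 (hAB.ht n hn).1 (hAB.ht n hn).2
  obtain ⟨F, hF, hFP⟩ := hT₁ T (le_trans (le_max_left _ _) hT) _ hP
  have hval : ∀ (n : ℕ) (i : Fin 2), (((F i).eval (n : 𝓞 ℚ) : 𝓞 ℚ) : ℚ) =
      ((F i).map (algebraMap (𝓞 ℚ) ℚ)).eval (n : ℚ) := by
    intro n i
    rw [eval_map, eval₂_at_natCast]
  have hdeg : ((F 0).map (algebraMap (𝓞 ℚ) ℚ)).natDegree = 0 ∧
      ((F 1).map (algebraMap (𝓞 ℚ) ℚ)).natDegree = 0 := by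
    by_contra hc
    obtain ⟨m, hm, hbm⟩ := hbad F hF hc S hS hSc
    apply hbm
    have hle : m ≤ T := hm.trans ((hT₂ F hF).trans (le_trans (le_max_right _ _) hT))
    obtain ⟨c, hc0, hcc⟩ := hFP m hle
    refine ⟨A m, B m, hAB.sol _ hle, c, hc0, ?_, ?_⟩
    · have := hcc 0
      simp only [Matrix.cons_val_zero] at this
      rw [this, hval]
    · have := hcc 1
      simp only [Matrix.cons_val_one, Matrix.cons_val_fin_one] at this
      rw [this, hval]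
  have hconst : ∀ n : ℕ, ∀ i, ((F i).map (algebraMap (𝓞 ℚ) ℚ)).eval (n : ℚ) =
      ((F i).map (algebraMap (𝓞 ℚ) ℚ)).eval (0 : ℚ) := by
    intro n i
    have h2 : ((F i).map (algebraMap (𝓞 ℚ) ℚ)).natDegree = 0 := by
      fin_cases i
      · exact hdeg.1
      · exact hdeg.2
    rw [Polynomial.eq_C_of_natDegree_eq_zero h2, eval_C, eval_C]
  obtain ⟨c, hc0, hcc⟩ := hFP n hn
  obtain ⟨d, hd0, hdd⟩ := hFP 0 (Nat.zero_le _)
  have a1 := hcc 0
  have b1 := hcc 1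
  have a2 := hdd 0
  have b2 := hdd 1
  simp only [Matrix.cons_val_zero, Matrix.cons_val_one, Matrix.cons_val_fin_one] at a1 b1 a2 b2
  rw [hval, hconst] at a1 b1 a2 b2
  have hpar : A n * B 0 = A 0 * B n := by
    have : (A n : ℚ) * B 0 = A 0 * B n := by
      rw [a1, b1, a2, b2]; ring
    exact_mod_cast this
  exact sign_of_same (hAB.sol n hn).1 (hAB.sol 0 (Nat.zero_le _)).1 hpar

end Pool.Agent.T6.H35.FE
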