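import Pool.Agent.T6.H35.FE.Schur

set_option autoImplicit false

/-!
# Polynomial families of solutions of generalised Fermat equations
-/

namespace Pool.Agent.T6.H35.FE

open Polynomial UniqueFactorizationMonoid

/-- `A` is `p`-full outside of `S`: every prime divisor of `A` outside of `S` divides it at least `p`
times -/
def FullAt (S : Set ℕ) (p : ℕ) (A : ℤ) : Prop :=
  ∀ ℓ : ℕ, ℓ.Prime → ℓ ∉ S → (ℓ : ℤ) ∣ A → (ℓ : ℤ) ^ p ∣ A

theorem pow_dvd_of_min (F : ℤ[X]) (N : ℕ) :
    ∃ (M m₀ : ℕ), 0 < M ∧ (∃ N' : ℕ, N ≤ N' ∧ ∀ ℓ : ℕ, ℓ.Prime → ℓ ∣ M → N < ℓ ∧ ℓ ≤ N') ∧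
      ∀ m : ℕ, m ≡ m₀ [MOD M] → ∀ p : ℕ, FullAt {ℓ | ℓ ≤ N} p (F.eval (m : ℤ)) →
        ∀ π : ℚ[X], Irreducible π → π ∣ F.map (Int.castRingHom ℚ) →
          π ^ p ∣ F.map (Int.castRingHom ℚ) := by
  classical
  by_cases hex : ∃ e : ℕ, ∃ π : ℚ[X], Irreducible π ∧ π ∣ F.map (Int.castRingHom ℚ) ∧
      π ^ e ∣ F.map (Int.castRingHom ℚ) ∧ ¬ π ^ (e + 1) ∣ F.map (Int.castRingHom ℚ)
  · obtain ⟨π, hπ, hπF, he, he'⟩ := Nat.find_spec hex
    set e := Nat.find hex with hedef
    have he1 : 1 ≤ e := by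
      by_contra h0
      have h1 : e = 0 := by omega
      rw [h1, zero_add, pow_one] at he'
      exact he' hπF
    obtain ⟨ℓ, hℓ, hℓN, m₀, hm₀⟩ := exact F π hπ e he1 he he' N
    refine ⟨ℓ ^ 2, m₀, pow_pos hℓ.pos 2, ⟨max N ℓ, le_max_left _ _, ?_⟩, ?_⟩
    · intro ℓ' hℓ' hdvd
      have h1 : ℓ' = ℓ := (Nat.prime_dvd_prime_iff_eq hℓ' hℓ).1 (hℓ'.dvd_of_dvd_pow hdvd)
      subst h1
      exact ⟨hℓN, le_max_right _ _⟩
    · intro m hm p hp π' hπ' hdvd
      obtain ⟨h1, h2⟩ := hm₀ m hm
      have h3 := hp ℓ hℓ (fun h : ℓ ≤ N => by omega) h1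
      have hpe : p ≤ e := by
        by_contra h4
        exact h2 ((pow_dvd_pow _ (by omega)).trans h3)
      by_contra h4
      -- a smaller multiplicity
      have h5 : ∃ e', e' < p ∧ π' ^ e' ∣ F.map (Int.castRingHom ℚ) ∧
          ¬ π' ^ (e' + 1) ∣ F.map (Int.castRingHom ℚ) := by
        have h6 : ∃ k, ¬ π' ^ k ∣ F.map (Int.castRingHom ℚ) := ⟨p, h4⟩
        set k := Nat.find h6 with hk
        have h7 : ¬ π' ^ k ∣ F.map (Int.castRingHom ℚ) := Nat.find_spec h6
        have h8 : k ≤ p := Nat.find_min' h6 h4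
        have hk0 : k ≠ 0 := by
          intro h0
          rw [h0, pow_zero] at h7
          exact h7 (one_dvd _)
        refine ⟨k - 1, by omega, ?_, ?_⟩
        · by_contra h9
          have := Nat.find_min' h6 h9
          omega
        · rw [Nat.sub_add_cancel (by omega)]
          exact h7
      obtain ⟨e', he'p, h6, h7⟩ := h5
      have h8 := Nat.find_min' hex ⟨π', hπ', hdvd, h6, h7⟩
      omega
  · refine ⟨1, 0, one_pos, ⟨N, le_refl _, ?_⟩, ?_⟩
    · intro ℓ hℓ hdvd
      exact absurd (Nat.dvd_one.1 hdvd) hℓ.one_lt.ne'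
    · intro m _ p _ π hπ hdvd
      by_contra h4
      apply hex
      have h6 : ∃ k, ¬ π ^ k ∣ F.map (Int.castRingHom ℚ) := ⟨p, h4⟩
      set k := Nat.find h6 with hk
      have h7 : ¬ π ^ k ∣ F.map (Int.castRingHom ℚ) := Nat.find_spec h6
      have hk0 : k ≠ 0 := by
        intro h0
        rw [h0, pow_zero] at h7
        exact h7 (one_dvd _)
      refine ⟨k - 1, π, hπ, hdvd, ?_, ?_⟩
      · by_contra h9
        have := Nat.find_min' h6 h9
        omega
      · rw [Nat.sub_add_cancel (by omega)]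
        exact h7

/-- the radical of a polynomial all of whose irreducible factors have multiplicity at least `p` -/
theorem rad_deg (A : ℚ[X]) (hA : A ≠ 0) (p : ℕ)
    (h : ∀ π : ℚ[X], Irreducible π → π ∣ A → π ^ p ∣ A) :
    p * (radical A).natDegree ≤ A.natDegree := by
  have h1 : (radical A) ^ p ∣ A := by
    unfold radical
    rw [← Finset.prod_pow]
    refine Finset.prod_dvd_of_coprime ?_ ?_
    · intro x hx y hy hxy
      have hx' : x ∈ normalizedFactors A := mem_primeFactors.1 hx
      have hy' : y ∈ normalizedFactors A := mem_primeFactors.1 hy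
      have hxi := irreducible_of_normalized_factor x hx'
      have hyi := irreducible_of_normalized_factor y hy'
      refine IsCoprime.pow ?_
      refine (hxi.coprime_iff_not_dvd).2 fun hdvd => hxy ?_
      have hass : Associated x y := (hxi.dvd_irreducible_iff_associated hyi).1 hdvd
      have e1 := normalize_normalized_factor x hx'
      have e2 := normalize_normalized_factor y hy'
      calc x = normalize x := e1.symm
        _ = normalize y := normalize_eq_normalize hass.dvd hass.symm.dvd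
        _ = y := e2
    · intro x hx
      have hx' : x ∈ normalizedFactors A := mem_primeFactors.1 hx
      exact h x (irreducible_of_normalized_factor x hx') (dvd_of_mem_normalizedFactors hx')
  have h2 := natDegree_le_of_dvd h1 hA
  rwa [natDegree_pow] at h2

/-- **Mason's theorem** for generalised Fermat equations -/
theorem mason (A B : ℚ[X]) (hA : A ≠ 0) (hB : B ≠ 0) (hC : A + B ≠ 0) (hcop : IsCoprime A B)
    (p q r : ℕ) (hp : 0 < p) (hq : 0 < q) (hr : 0 < r) (hpqr : (1 : ℚ) / p + 1 / q + 1 / r < 1)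
    (h1 : ∀ π : ℚ[X], Irreducible π → π ∣ A → π ^ p ∣ A)
    (h2 : ∀ π : ℚ[X], Irreducible π → π ∣ B → π ^ q ∣ B)
    (h3 : ∀ π : ℚ[X], Irreducible π → π ∣ A + B → π ^ r ∣ A + B) :
    A.natDegree = 0 ∧ B.natDegree = 0 := by
  have hC' : -(A + B) ≠ 0 := neg_ne_zero.2 hC
  rcases Polynomial.abc hA hB hC' hcop (by ring) with ⟨k1, k2, k3⟩ | ⟨k1, k2, -⟩
  · exfalso
    have hrad : (radical (A * B * -(A + B))).natDegree ≤
        (radical A).natDegree + (radical B).natDegree + (radical (A + B)).natDegree := by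
      have e1 : radical (A * B * -(A + B)) ∣ radical A * radical B * radical (A + B) := by
        refine (radical_mul_dvd).trans ?_
        rw [UniqueFactorizationDomain.radical_neg]
        exact mul_dvd_mul radical_mul_dvd (dvd_refl _)
      have hne : radical A * radical B * radical (A + B) ≠ 0 :=
        mul_ne_zero (mul_ne_zero radical_ne_zero radical_ne_zero) radical_ne_zero
      refine (natDegree_le_of_dvd e1 hne).trans ?_
      rw [natDegree_mul (mul_ne_zero radical_ne_zero radical_ne_zero) radical_ne_zero,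
        natDegree_mul radical_ne_zero radical_ne_zero]
    rw [natDegree_neg] at k3
    have d1 := rad_deg A hA p h1
    have d2 := rad_deg B hB q h2
    have d3 := rad_deg (A + B) hC r h3
    set a := A.natDegree
    set b := B.natDegree
    set c := (A + B).natDegree
    set x := (radical A).natDegree
    set y := (radical B).natDegree
    set z := (radical (A + B)).natDegree
    set δ := max a (max b c) with hδ
    have ha : a ≤ δ := le_max_left _ _
    have hb : b ≤ δ := (le_max_left _ _).trans (le_max_right _ _)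
    have hc : c ≤ δ := (le_max_right _ _).trans (le_max_right _ _)
    have hδ1 : δ + 1 ≤ x + y + z := by
      rcases max_choice a (max b c) with h | h
      · rw [hδ, h]; omega
      · rcases max_choice b c with h' | h'
        · rw [hδ, h, h']; omega
        · rw [hδ, h, h']; omega
    have hpQ : (0 : ℚ) < p := by exact_mod_cast hp
    have hqQ : (0 : ℚ) < q := by exact_mod_cast hq
    have hrQ : (0 : ℚ) < r := by exact_mod_cast hr
    have g1 : (x : ℚ) ≤ δ * (1 / p) := by
      rw [mul_one_div, le_div_iff₀ hpQ]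
      have : (p : ℚ) * x ≤ δ := by exact_mod_cast d1.trans ha
      linarith
    have g2 : (y : ℚ) ≤ δ * (1 / q) := by
      rw [mul_one_div, le_div_iff₀ hqQ]
      have : (q : ℚ) * y ≤ δ := by exact_mod_cast d2.trans hb
      linarith
    have g3 : (z : ℚ) ≤ δ * (1 / r) := by
      rw [mul_one_div, le_div_iff₀ hrQ]
      have : (r : ℚ) * z ≤ δ := by exact_mod_cast d3.trans hc
      linarith
    have g4 : (δ : ℚ) + 1 ≤ x + y + z := by exact_mod_cast hδ1
    have g5 : (δ : ℚ) * (1 / p + 1 / q + 1 / r) ≤ δ * 1 :=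
      mul_le_mul_of_nonneg_left hpqr.le (Nat.cast_nonneg _)
    linarith [mul_add (δ : ℚ) (1 / p + 1 / q) (1 / r), mul_add (δ : ℚ) (1 / p) (1 / q)]
  · exact ⟨Polynomial.derivative_eq_zero.1 k1, Polynomial.derivative_eq_zero.1 k2⟩

end Pool.Agent.T6.H35.FE
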