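import Mathlib

set_option autoImplicit false

/-!
# Exact prime divisors of the values of integer polynomials
-/

namespace Pool.Agent.T6.H35.FE

open Polynomial

/-- a nonconstant integer polynomial has values at natural numbers divisible by large primes -/
theorem schur (P : ℤ[X]) (hP : 0 < P.natDegree) (N : ℕ) :
    ∃ ℓ : ℕ, ℓ.Prime ∧ N < ℓ ∧ ∃ m : ℕ, (ℓ : ℤ) ∣ P.eval (m : ℤ) := by
  by_cases hc : P.eval 0 = 0
  · obtain ⟨ℓ, hℓN, hℓ⟩ := Nat.exists_infinite_primes (N + 1)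
    refine ⟨ℓ, hℓ, by omega, ℓ, ?_⟩
    have h1 := Polynomial.sub_dvd_eval_sub (ℓ : ℤ) 0 P
    rw [hc, sub_zero, sub_zero] at h1
    exact h1
  set c : ℤ := P.eval 0 with hcdef
  set T : ℕ := c.natAbs * N.factorial with hT
  have hT0 : 0 < T := Nat.mul_pos (Int.natAbs_pos.2 hc) N.factorial_pos
  -- a value different from `c` and `-c`
  have hne : ∀ a : ℤ, P - C a ≠ 0 := by
    intro a h0
    have h1 : P = C a := sub_eq_zero.1 h0
    rw [h1, natDegree_C] at hP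
    exact lt_irrefl _ hP
  have hQ : (P - C c) * (P - C (-c)) ≠ 0 := mul_ne_zero (hne _) (hne _)
  obtain ⟨t, ht⟩ : ∃ t : ℕ, ((P - C c) * (P - C (-c))).eval ((T * t : ℕ) : ℤ) ≠ 0 := by
    by_contra hcon
    push Not at hcon
    apply hQ
    refine Polynomial.eq_zero_of_infinite_isRoot _ ?_
    refine Set.infinite_of_injective_forall_mem (f := fun t : ℕ => ((T * t : ℕ) : ℤ)) ?_ hcon
    intro a b hab
    have hab' : ((T * a : ℕ) : ℤ) = ((T * b : ℕ) : ℤ) := hab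
    have h1 : T * a = T * b := by exact_mod_cast hab'
    exact Nat.eq_of_mul_eq_mul_left hT0 h1
  rw [eval_mul, eval_sub, eval_sub, eval_C, eval_C] at ht
  have h1 : P.eval ((T * t : ℕ) : ℤ) ≠ c := fun h => ht (by rw [h, sub_self, zero_mul])
  have h2 : P.eval ((T * t : ℕ) : ℤ) ≠ -c := fun h => ht (by rw [h, sub_self, mul_zero])
  have h3 : ((T * t : ℕ) : ℤ) ∣ P.eval ((T * t : ℕ) : ℤ) - c := by
    have := Polynomial.sub_dvd_eval_sub ((T * t : ℕ) : ℤ) 0 P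
    rwa [sub_zero] at this
  have h4 : c * (N.factorial : ℤ) ∣ P.eval ((T * t : ℕ) : ℤ) - c := by
    refine Dvd.dvd.trans ?_ h3
    have h5 : ((T * t : ℕ) : ℤ) = (c.natAbs : ℤ) * (N.factorial : ℤ) * t := by
      rw [hT]; push_cast; ring
    rw [h5]
    refine Dvd.dvd.mul_right ?_ _
    exact mul_dvd_mul (Int.dvd_natCast.2 (dvd_refl _)) (dvd_refl _)
  obtain ⟨k, hk⟩ := h4
  have h5 : P.eval ((T * t : ℕ) : ℤ) = c * (1 + (N.factorial : ℤ) * k) := by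
    linear_combination hk
  set u : ℤ := 1 + (N.factorial : ℤ) * k with hu
  have hu1 : u.natAbs ≠ 1 := by
    intro h
    rcases Int.natAbs_eq u with h6 | h6
    · rw [h, Nat.cast_one] at h6
      exact h1 (by rw [h5, h6, mul_one])
    · rw [h, Nat.cast_one] at h6
      exact h2 (by rw [h5, h6]; ring)
  obtain ⟨ℓ, hℓ, hℓu⟩ := Nat.exists_prime_and_dvd hu1
  have hℓu' : (ℓ : ℤ) ∣ u := Int.natCast_dvd.2 hℓu
  refine ⟨ℓ, hℓ, ?_, T * t, ?_⟩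
  · by_contra hle
    have h7 : ℓ ∣ N.factorial := (Nat.Prime.dvd_factorial hℓ).2 (not_lt.1 hle)
    have h8 : (ℓ : ℤ) ∣ (N.factorial : ℤ) * k := (Int.natCast_dvd_natCast.2 h7).mul_right _
    have h9 : (ℓ : ℤ) ∣ 1 := by
      have := dvd_sub hℓu' h8
      rwa [hu, add_sub_cancel_right] at this
    exact hℓ.one_lt.ne' (by exact_mod_cast Int.eq_one_of_dvd_one (by positivity) h9)
  · rw [h5]
    exact hℓu'.mul_left _

theorem clearZ (f : ℚ[X]) : ∃ (F : ℤ[X]) (b : ℤ), b ≠ 0 ∧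
    F.map (Int.castRingHom ℚ) = C (b : ℚ) * f := by
  obtain ⟨b, hb, h1⟩ := IsLocalization.integerNormalization_spec (nonZeroDivisors ℤ) f
  refine ⟨_, b, nonZeroDivisors.ne_zero hb, h1.trans ?_⟩
  ext n
  rw [coeff_smul, coeff_C_mul]
  simp

theorem mapZ_inj {F G : ℤ[X]} (h : F.map (Int.castRingHom ℚ) = G.map (Int.castRingHom ℚ)) :
    F = G :=
  Polynomial.map_injective _ Int.cast_injective h

theorem clear2 (P Q R : ℤ[X]) (a b : ℚ[X])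
    (h : R.map (Int.castRingHom ℚ) =
      a * P.map (Int.castRingHom ℚ) + b * Q.map (Int.castRingHom ℚ)) :
    ∃ d : ℤ, d ≠ 0 ∧ ∃ A B : ℤ[X], C d * R = A * P + B * Q := by
  obtain ⟨A, x, hx, hA⟩ := clearZ a
  obtain ⟨B, y, hy, hB⟩ := clearZ b
  refine ⟨x * y, mul_ne_zero hx hy, C y * A, C x * B, ?_⟩
  apply mapZ_inj
  simp only [Polynomial.map_mul, Polynomial.map_add, map_C, hA, hB, h, Int.coe_castRingHom, C_mul]
  ring

theorem castZ_eval (F : ℤ[X]) (m : ℕ) :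
    (F.map (Int.castRingHom ℚ)).eval (m : ℚ) = ((F.eval (m : ℤ) : ℤ) : ℚ) := by
  rw [Polynomial.eval_natCast_map]
  rfl

/-- an irreducible factor of multiplicity `e` gives values exactly divisible by `ℓ ^ e` -/
theorem exact (F : ℤ[X]) (π : ℚ[X]) (hπ : Irreducible π) (e : ℕ) (he1 : 1 ≤ e)
    (he : π ^ e ∣ F.map (Int.castRingHom ℚ)) (he' : ¬ π ^ (e + 1) ∣ F.map (Int.castRingHom ℚ))
    (N : ℕ) : ∃ ℓ : ℕ, ℓ.Prime ∧ N < ℓ ∧ ∃ m : ℕ, ∀ m' : ℕ, m' ≡ m [MOD ℓ ^ 2] →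
      (ℓ : ℤ) ∣ F.eval (m' : ℤ) ∧ ¬ (ℓ : ℤ) ^ (e + 1) ∣ F.eval (m' : ℤ) := by
  obtain ⟨P, c, hc, hP⟩ := clearZ π
  obtain ⟨G₀, hG₀⟩ := he
  obtain ⟨G, g, hg, hG⟩ := clearZ G₀
  have hcQ : (c : ℚ) ≠ 0 := by exact_mod_cast hc
  have hgQ : (g : ℚ) ≠ 0 := by exact_mod_cast hg
  have hFG : C (c ^ e * g) * F = P ^ e * G := by
    apply mapZ_inj
    simp only [Polynomial.map_mul, Polynomial.map_pow, map_C, hP, hG, hG₀, Int.coe_castRingHom,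
      C_mul, C_pow]
    ring
  have hπG : ¬ π ∣ G₀ := by
    rintro ⟨H, hH⟩
    apply he'
    rw [hG₀, hH, pow_succ]
    exact ⟨H, by ring⟩
  obtain ⟨a, b, hab⟩ : IsCoprime π (derivative π) := hπ.separable
  obtain ⟨a', b', hab'⟩ : IsCoprime π G₀ := (hπ.coprime_iff_not_dvd).2 hπG
  have hC : ∀ x : ℚ, x ≠ 0 → C (x⁻¹) * C x = (1 : ℚ[X]) := fun x hx => by
    rw [← C_mul, inv_mul_cancel₀ hx, C_1]
  obtain ⟨r₁, hr₁, A₁, B₁, h1⟩ := clear2 P (derivative P) 1 (C ((c : ℚ)⁻¹) * a)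
    (C ((c : ℚ)⁻¹) * b) (by
      rw [← derivative_map, hP, derivative_C_mul, Polynomial.map_one, ← hab]
      linear_combination (-(a * π) - b * derivative π) * hC _ hcQ)
  obtain ⟨r₂, hr₂, A₂, B₂, h2⟩ := clear2 P G 1 (C ((c : ℚ)⁻¹) * a')
    (C ((g : ℚ)⁻¹) * b') (by
      rw [hP, hG, Polynomial.map_one, ← hab']
      linear_combination (-(a' * π)) * hC _ hcQ - (b' * G₀) * hC _ hgQ)
  have hPdeg : 0 < P.natDegree := by
    have h3 : (P.map (Int.castRingHom ℚ)).natDegree = P.natDegree :=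
      natDegree_map_eq_of_injective Int.cast_injective P
    rw [← h3, hP, natDegree_C_mul hcQ]
    exact hπ.natDegree_pos
  obtain ⟨ℓ, hℓ, hℓN, m₀, hm₀⟩ := schur P hPdeg
    (N + r₁.natAbs + r₂.natAbs + (c ^ e * g).natAbs)
  have hndvd : ∀ x : ℤ, x ≠ 0 → x.natAbs < ℓ → ¬ (ℓ : ℤ) ∣ x := by
    intro x hx hlt hdvd
    have h3 := Int.natCast_dvd.1 hdvd
    have h4 := Nat.le_of_dvd (Int.natAbs_pos.2 hx) h3
    omega
  have hℓp : Prime (ℓ : ℤ) := Nat.prime_iff_prime_int.1 hℓ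
  have hd0 : c ^ e * g ≠ 0 := mul_ne_zero (pow_ne_zero _ hc) hg
  have hP' : ∀ m : ℤ, (ℓ : ℤ) ∣ P.eval m → ¬ (ℓ : ℤ) ∣ (derivative P).eval m := by
    intro m h3 h4
    have h5 := congrArg (eval m) h1
    rw [mul_one, eval_C, eval_add, eval_mul, eval_mul] at h5
    refine hndvd r₁ hr₁ (by omega) ?_
    rw [h5]
    exact dvd_add (h3.mul_left _) (h4.mul_left _)
  have hG' : ∀ m : ℤ, (ℓ : ℤ) ∣ P.eval m → ¬ (ℓ : ℤ) ∣ G.eval m := by
    intro m h3 h4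
    have h5 := congrArg (eval m) h2
    rw [mul_one, eval_C, eval_add, eval_mul, eval_mul] at h5
    refine hndvd r₂ hr₂ (by omega) ?_
    rw [h5]
    exact dvd_add (h3.mul_left _) (h4.mul_left _)
  -- an exact divisor
  obtain ⟨m₁, hm₁, hm₁'⟩ : ∃ m₁ : ℕ, (ℓ : ℤ) ∣ P.eval (m₁ : ℤ) ∧ ¬ (ℓ : ℤ) ^ 2 ∣ P.eval (m₁ : ℤ) := by
    by_cases h3 : (ℓ : ℤ) ^ 2 ∣ P.eval (m₀ : ℤ)
    · refine ⟨m₀ + ℓ, ?_, ?_⟩
      · have h4 := Polynomial.sub_dvd_eval_sub ((m₀ + ℓ : ℕ) : ℤ) (m₀ : ℤ) P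
        have h5 : ((m₀ + ℓ : ℕ) : ℤ) - (m₀ : ℤ) = (ℓ : ℤ) := by push_cast; ring
        rw [h5] at h4
        have h6 := dvd_add h4 hm₀
        rwa [sub_add_cancel] at h6
      · intro h4
        obtain ⟨k, hk⟩ := Polynomial.binomExpansion P (m₀ : ℤ) (ℓ : ℤ)
        have h5 : ((m₀ + ℓ : ℕ) : ℤ) = (m₀ : ℤ) + (ℓ : ℤ) := by push_cast; ring
        rw [h5, hk] at h4
        have h6 : (ℓ : ℤ) ^ 2 ∣ (derivative P).eval (m₀ : ℤ) * (ℓ : ℤ) := by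
          have h7 := dvd_sub h4 (dvd_add h3 (Dvd.intro_left k (rfl : k * (ℓ : ℤ) ^ 2 = _)))
          have h8 : P.eval (m₀ : ℤ) + (derivative P).eval (m₀ : ℤ) * (ℓ : ℤ) + k * (ℓ : ℤ) ^ 2 -
              (P.eval (m₀ : ℤ) + k * (ℓ : ℤ) ^ 2) = (derivative P).eval (m₀ : ℤ) * (ℓ : ℤ) := by
            ring
          rwa [h8] at h7
        rw [pow_two] at h6
        exact hP' _ hm₀ ((mul_dvd_mul_iff_right hℓp.ne_zero).1 h6)
    · exact ⟨m₀, hm₀, h3⟩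
  refine ⟨ℓ, hℓ, by omega, m₁, ?_⟩
  intro m' hm'
  have h3 : (ℓ : ℤ) ^ 2 ∣ P.eval (m' : ℤ) - P.eval (m₁ : ℤ) := by
    refine Dvd.dvd.trans ?_ (Polynomial.sub_dvd_eval_sub (m' : ℤ) (m₁ : ℤ) P)
    have h4 := (Nat.modEq_iff_dvd.1 hm'.symm)
    push_cast at h4
    exact h4
  have h4 : (ℓ : ℤ) ∣ P.eval (m' : ℤ) := by
    have h5 := dvd_add ((dvd_pow_self (ℓ : ℤ) two_ne_zero).trans h3) hm₁
    rwa [sub_add_cancel] at h5
  have h5 : ¬ (ℓ : ℤ) ^ 2 ∣ P.eval (m' : ℤ) := by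
    intro h6
    apply hm₁'
    have h7 := dvd_sub h6 h3
    rwa [sub_sub_cancel] at h7
  have h6 := hG' _ h4
  have h7 := congrArg (eval (m' : ℤ)) hFG
  rw [eval_mul, eval_C, eval_mul, eval_pow] at h7
  have hd := hndvd _ hd0 (by omega)
  constructor
  · have h8 : (ℓ : ℤ) ∣ (c ^ e * g) * F.eval (m' : ℤ) := by
      rw [h7]
      exact (dvd_pow h4 (by omega)).mul_right _
    exact (hℓp.dvd_or_dvd h8).resolve_left hd
  · intro h8
    have h9 : (ℓ : ℤ) ^ (e + 1) ∣ P.eval (m' : ℤ) ^ e * G.eval (m' : ℤ) := by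
      rw [← h7]
      exact h8.mul_left _
    obtain ⟨u, hu⟩ := h4
    have hu' : ¬ (ℓ : ℤ) ∣ u := by
      rintro ⟨k, hk⟩
      apply h5
      rw [hu, hk]
      exact ⟨k, by ring⟩
    rw [hu, mul_pow, mul_assoc, pow_succ] at h9
    have h10 := (mul_dvd_mul_iff_left (pow_ne_zero e hℓp.ne_zero)).1 h9
    rcases hℓp.dvd_or_dvd h10 with h11 | h11
    · exact hu' (hℓp.dvd_of_dvd_pow h11)
    · exact h6 h11

end Pool.Agent.T6.H35.FE
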